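import Pool.Agent.OST.Final3

/-!
# The approximability of MAX SMTI with ties of bounded length under the Unique Games Conjecture

Suppose that the Unique Games Conjecture holds and `P ≠ NP`. Then on the instances of MAX SMTI whose ties
(in the lists of the men and of the women) have length at most `L`, no polynomial-time algorithm has an
approximation ratio below `(3 L - 2) / (2 L - 1)`.
-/

namespace Pool.Agent.Results.MP_8423a1_lc.BoundedTies

theorem result (hU : SMT.UGC) (hP : SMT.P ≠ NPC.NP) (L : ℕ) (hL : 1 ≤ L) :
    (3 * (L : ℝ) - 2) / (2 * L - 1) ≤ OST.rhoBoth L :=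
  OST.rhoBoth_ge hU hP L hL

end Pool.Agent.Results.MP_8423a1_lc.BoundedTies
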