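import Pool.Agent.OST.Final2

/-!
# The approximability of MAX SMTI with one-sided ties under the Unique Games Conjecture

Suppose that the Unique Games Conjecture holds and `P ≠ NP`. Then on the instances of MAX SMTI whose ties
occur only in the lists of the women and have length at most `L`, no polynomial-time algorithm has an
approximation ratio below `1 + (1 - 1/L)^L`; on the instances whose ties occur only in the lists of the
women (and have any length), none has a ratio below `1 + 1/e`.
-/

namespace Pool.Agent.Results.MP_8423a1_lc.OneSidedTies

theorem result (hU : SMT.UGC) (hP : SMT.P ≠ NPC.NP) :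
    (∀ L : ℕ, 1 ≤ L → 1 + (1 - 1 / (L : ℝ)) ^ L ≤ OST.rhoTies L) ∧
      1 + Real.exp (-1) ≤ OST.rhoOne :=
  ⟨fun L hL => OST.rhoTies_ge hU hP L hL, OST.rhoOne_ge_exp hU hP⟩

end Pool.Agent.Results.MP_8423a1_lc.OneSidedTies
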