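import Pool.Agent.SMT.Final

/-!
# A lower bound for the approximability of MAX SMTI under `P ≠ NP`

By the 2-to-1 games theorem (Khot, Minzer and Safra), taken as a hypothesis since it is not in
Mathlib, if `P ≠ NP` then no polynomial-time algorithm for MAX SMTI has an approximation ratio below
`2 - 1/√2 = 1.2928…`.
-/

namespace Pool.Agent.Results.MP_8423a1_lc.TwoToOneLower

theorem result (hU : SMT.TwoToOne) (hP : SMT.P ≠ NPC.NP) : 2 - 1 / √2 ≤ SMT.rhoStar :=
  SMT.rhoStar_two hU hP

end Pool.Agent.Results.MP_8423a1_lc.TwoToOneLower
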