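import Pool.Agent.SMT.Final

/-!
# The approximability of MAX SMTI under the Unique Games Conjecture

If the Unique Games Conjecture holds and `P ≠ NP`, then the best approximation ratio of
polynomial-time algorithms for MAX SMTI is exactly `3/2`.
-/

namespace Pool.Agent.Results.MP_8423a1_lc.UGCThreeHalves

theorem result (hU : SMT.UGC) (hP : SMT.P ≠ NPC.NP) : SMT.rhoStar = 3 / 2 :=
  SMT.rhoStar_eq hU hP

end Pool.Agent.Results.MP_8423a1_lc.UGCThreeHalves
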